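import Pool.Agent.Run7.h408.EF.Stm
import Pool.Agent.Y592.QE.Spec
import Pool.Agent.Y726.QE.Der

/-!
# Project EF (helper408), piece `StDV`: test vectors for perturbed forms
-/

set_option autoImplicit false

open Set Filter Topology MeasureTheory
open scoped Real ContDiff

noncomputable section

namespace Pool.Agent.Run7.h437.EF

open Pool.Agent.Y262.QE Pool.Agent.Y264.QR Pool.Agent.Y592.QE Pool.Agent.Run7.h408.EF

/-- the inequality for the coefficients of `x²` -/
lemma ineq_x {lam A κa κb K s ε ε' τ μ : ℝ} (_hlam : 0 < lam) (hK : 0 ≤ K) (hs : 0 < s)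
    (hε : 0 < ε) (hε' : 0 < ε') (hA : A = κa - lam * κb) (hμ : μ = lam + τ * A + ε * |τ|)
    (h1 : |τ| * (|A| + ε) ≤ 1) (h2 : |κb| * (|τ| * (|A| + ε)) ≤ ε / 4)
    (h3 : (2 * lam + 1) * ε' ≤ ε / 4) (h4 : (lam + 2) * (K * s) ≤ ε / 4) :
    lam * (1 + ε' * |τ|) + τ * κa + |τ| * ((μ + 1) * (K * s)) + |τ| * (ε / 4) ≤
      μ * (1 + τ * κb - ε' * |τ|) := by
  have ht := abs_nonneg τ
  have hμl : |μ - lam| ≤ |τ| * (|A| + ε) := by
    rw [hμ, show lam + τ * A + ε * |τ| - lam = τ * A + ε * |τ| by ring]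
    refine (abs_add_le _ _).trans ?_
    rw [abs_mul, abs_mul, abs_abs, abs_of_pos hε]
    linarith
  have hμu : μ ≤ lam + 1 := by
    have := (abs_le.1 hμl).2
    linarith
  have e1 : -(|τ| * (ε / 4)) ≤ (μ - lam) * (τ * κb) := by
    have h5 : |(μ - lam) * (τ * κb)| ≤ |τ| * (ε / 4) := by
      rw [abs_mul, abs_mul]
      calc |μ - lam| * (|τ| * |κb|) ≤ (|τ| * (|A| + ε)) * (|τ| * |κb|) :=
            mul_le_mul_of_nonneg_right hμl (by positivity)
        _ = |τ| * (|κb| * (|τ| * (|A| + ε))) := by ring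
        _ ≤ |τ| * (ε / 4) := mul_le_mul_of_nonneg_left h2 ht
    exact (abs_le.1 h5).1
  have e2 : (μ + lam) * ε' * |τ| ≤ |τ| * (ε / 4) := by
    have h5 : (μ + lam) * ε' ≤ (2 * lam + 1) * ε' :=
      mul_le_mul_of_nonneg_right (by linarith) hε'.le
    have h6 := mul_le_mul_of_nonneg_right (h5.trans h3) ht
    linarith
  have e3 : |τ| * ((μ + 1) * (K * s)) ≤ |τ| * (ε / 4) := by
    refine mul_le_mul_of_nonneg_left ?_ ht
    have h5 : (μ + 1) * (K * s) ≤ (lam + 2) * (K * s) :=
      mul_le_mul_of_nonneg_right (by linarith) (by positivity)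
    linarith
  have e4 : μ * (1 + τ * κb - ε' * |τ|) = lam + lam * (ε' * |τ|) + τ * κa + ε * |τ| +
      (μ - lam) * (τ * κb) - (μ + lam) * ε' * |τ| := by
    have : μ = lam + τ * (κa - lam * κb) + ε * |τ| := by rw [hμ, hA]
    have h5 : μ * (1 + τ * κb - ε' * |τ|) = μ + (μ - lam) * (τ * κb) + lam * (τ * κb) -
      (μ + lam) * ε' * |τ| + lam * (ε' * |τ|) := by ring
    rw [h5]
    linarith
  rw [e4]
  linarith

/-- the inequality for the other coefficients -/
lemma ineq_y {lam A K s ε ε' τ μ g : ℝ} (_hlam : 0 < lam) (hK : 0 ≤ K) (hs : 0 < s)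
    (hε : 0 < ε) (hε' : 0 < ε') (hg : 0 < g) (hμ : μ = lam + τ * A + ε * |τ|)
    (h1 : |τ| * (|A| + ε) ≤ 1)
    (h5 : (|A| + ε + ε' * (2 * lam + 1) + (lam + 2) * (K * (1 + 1 / s))) * |τ| ≤ g / 2) :
    (1 + ε' * |τ|) * (lam - g) + |τ| * ((μ + 1) * (K * (1 + 1 / s))) + g / 2 ≤
      μ * (1 - ε' * |τ|) := by
  have ht := abs_nonneg τ
  have hμl : |μ - lam| ≤ |τ| * (|A| + ε) := by
    rw [hμ, show lam + τ * A + ε * |τ| - lam = τ * A + ε * |τ| by ring]
    refine (abs_add_le _ _).trans ?_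
    rw [abs_mul, abs_mul, abs_abs, abs_of_pos hε]
    linarith
  have hμu : μ ≤ lam + 1 := by
    have := (abs_le.1 hμl).2
    linarith
  have hμd : lam - |τ| * (|A| + ε) ≤ μ := by
    have := (abs_le.1 hμl).1
    linarith
  have e1 : |τ| * ((μ + 1) * (K * (1 + 1 / s))) ≤ |τ| * ((lam + 2) * (K * (1 + 1 / s))) := by
    refine mul_le_mul_of_nonneg_left ?_ ht
    exact mul_le_mul_of_nonneg_right (by linarith) (by positivity)
  have e2 : ε' * |τ| * (μ + lam - g) ≤ ε' * |τ| * (2 * lam + 1) :=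
    mul_le_mul_of_nonneg_left (by linarith) (by positivity)
  have e3 : μ * (1 - ε' * |τ|) = μ - ε' * |τ| * (μ + lam - g) + ε' * |τ| * (lam - g) := by ring
  rw [e3]
  have e4 : (1 + ε' * |τ|) * (lam - g) = lam - g + ε' * |τ| * (lam - g) := by ring
  rw [e4]
  linarith

lemma small {A B τ : ℝ} (hA : 0 ≤ A) (h : |τ| < B / (A + 1)) : A * |τ| ≤ B := by
  rw [lt_div_iff₀ (by linarith)] at h
  nlinarith [abs_nonneg τ]

lemma cross {H : Type} [NormedAddCommGroup H] [InnerProductSpace ℝ H] (k : H →L[ℝ] H →L[ℝ] ℝ)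
    (ksym : ∀ u v, k u v = k v u) (y ej : H) (x s K Y : ℝ) (hs : 0 < s)
    (hb : ∀ t : ℝ, |k (y + t • ej) (y + t • ej)| ≤ K * (Y + t ^ 2)) :
    |2 * x * k y ej| ≤ K * (Y / s + s * x ^ 2) := by
  have p1 := hb (s * x)
  have p2 := hb (-(s * x))
  have q1 : k (y + (s * x) • ej) (y + (s * x) • ej) =
      k y y + 2 * (s * x) * k y ej + k ej ej * (s * x) ^ 2 := by
    simp only [map_add, map_smul, add_apply,
      smul_apply, smul_eq_mul]
    rw [ksym ej y]
    ring
  have q2 : k (y + (-(s * x)) • ej) (y + (-(s * x)) • ej) =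
      k y y - 2 * (s * x) * k y ej + k ej ej * (s * x) ^ 2 := by
    simp only [map_add, map_smul, add_apply,
      smul_apply, smul_eq_mul]
    rw [ksym ej y]
    ring
  rw [q1] at p1
  rw [q2] at p2
  have h5 : |s * (2 * x * k y ej)| ≤ s * (K * (Y / s + s * x ^ 2)) := by
    have h6 : s * (K * (Y / s + s * x ^ 2)) = K * (Y + (s * x) ^ 2) := by
      field_simp
    rw [h6]
    rw [neg_sq] at p2
    obtain ⟨u1, u2⟩ := abs_le.1 p1
    obtain ⟨w1, w2⟩ := abs_le.1 p2
    rw [abs_le]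
    constructor <;> linarith
  rw [abs_mul, abs_of_pos hs] at h5
  exact le_of_mul_le_mul_left h5 hs

lemma expand {H : Type} [NormedAddCommGroup H] [InnerProductSpace ℝ H] (k : H →L[ℝ] H →L[ℝ] ℝ)
    (ksym : ∀ u v, k u v = k v u) (y ej : H) (x : ℝ) :
    k (y + x • ej) (y + x • ej) = k y y + 2 * x * k y ej + k ej ej * x ^ 2 := by
  simp only [map_add, map_smul, add_apply,
    smul_apply, smul_eq_mul]
  rw [ksym ej y]
  ring

theorem tDV : StDV := by
  intro H _ _ a b hF e E hE ka kb kasym kbsym i j hij hlt hpos ε hε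
  obtain ⟨c0, hc0, hco⟩ := hF.co
  set lam := E i with hlamdef
  have hlam0 : 0 ≤ lam := hpos.le
  set K : ℝ := (‖ka‖ + ‖kb‖) * ((lam + 1) / c0) with hKdef
  have hK : 0 ≤ K := by
    have h1 := ContinuousLinearMap.opNorm_nonneg ka
    have h2 := ContinuousLinearMap.opNorm_nonneg kb
    positivity
  have hkbd : ∀ k : H →L[ℝ] H →L[ℝ] ℝ, ‖k‖ ≤ ‖ka‖ + ‖kb‖ → ∀ v, a v v ≤ lam * b v v →
      |k v v| ≤ K * b v v := by
    intro k hk v hv
    have h1 : |k v v| ≤ ‖k‖ * ‖v‖ * ‖v‖ := k.le_opNorm₂ v v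
    have h2 := hco v
    have h3 : ‖v‖ ^ 2 ≤ (lam + 1) / c0 * b v v := by
      rw [div_mul_eq_mul_div, le_div_iff₀ hc0]
      linarith
    have h4 := ContinuousLinearMap.opNorm_nonneg k
    calc |k v v| ≤ ‖k‖ * ‖v‖ ^ 2 := by rw [pow_two, ← mul_assoc]; exact h1
      _ ≤ (‖ka‖ + ‖kb‖) * ‖v‖ ^ 2 := mul_le_mul_of_nonneg_right hk (by positivity)
      _ ≤ (‖ka‖ + ‖kb‖) * ((lam + 1) / c0 * b v v) :=
          mul_le_mul_of_nonneg_left h3 (h4.trans hk)
      _ = K * b v v := by rw [hKdef]; ring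
  set κa := ka (e j) (e j) with hκa
  set κb := kb (e j) (e j) with hκb
  set A : ℝ := κa - lam * κb with hA
  obtain ⟨g, hg, hgap⟩ := Pool.Agent.Y726.QE.exists_gap (Finset.range i) (fun l => lam - E l)
    (fun l hl => by
      have := hlt l (Finset.mem_range.1 hl)
      linarith)
  set ε' : ℝ := ε / (4 * (2 * lam + 1)) with hε'def
  have hε' : 0 < ε' := by positivity
  have h3 : (2 * lam + 1) * ε' ≤ ε / 4 := by
    rw [hε'def]
    apply le_of_eq
    field_simp
  set s : ℝ := ε / (4 * ((lam + 2) * K + 1)) with hsdef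
  have hs : 0 < s := by positivity
  have h4 : (lam + 2) * (K * s) ≤ ε / 4 := by
    have h5 : (lam + 2) * (K * s) = ((lam + 2) * K) * s := by ring
    rw [h5, hsdef, mul_div_assoc', div_le_iff₀ (by positivity)]
    have : 0 ≤ (lam + 2) * K := by positivity
    nlinarith
  set B : ℝ := |A| + ε + ε' * (2 * lam + 1) + (lam + 2) * (K * (1 + 1 / s)) with hBdef
  have hB : 0 ≤ B := by positivity
  refine ⟨min (min (1 / ((|A| + ε) + 1)) (lam / ((|A| + ε) + 1)))
    (min (min ((ε / 4) / (|κb| * (|A| + ε) + 1)) ((g / 2) / (B + 1)))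
      ((1 / 2) / (K + ε' + 1))), ε', ?_, hε', ?_⟩
  · refine lt_min (lt_min ?_ ?_) (lt_min (lt_min ?_ ?_) ?_) <;> positivity
  intro τ hτ0 hτ
  have t1 : (|A| + ε) * |τ| ≤ 1 :=
    small (by positivity) (lt_of_lt_of_le hτ ((min_le_left _ _).trans (min_le_left _ _)))
  have t2 : (|A| + ε) * |τ| ≤ lam :=
    small (by positivity) (lt_of_lt_of_le hτ ((min_le_left _ _).trans (min_le_right _ _)))
  have t3 : (|κb| * (|A| + ε)) * |τ| ≤ ε / 4 :=
    small (by positivity) (lt_of_lt_of_le hτ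
      ((min_le_right _ _).trans ((min_le_left _ _).trans (min_le_left _ _))))
  have t4 : B * |τ| ≤ g / 2 :=
    small (by positivity) (lt_of_lt_of_le hτ
      ((min_le_right _ _).trans ((min_le_left _ _).trans (min_le_right _ _))))
  have t5 : (K + ε') * |τ| ≤ 1 / 2 :=
    small (by positivity) (lt_of_lt_of_le hτ ((min_le_right _ _).trans (min_le_right _ _)))
  have ht := abs_nonneg τ
  set μ : ℝ := lam + τ * A + ε * |τ| with hμdef
  have hμ0 : 0 ≤ μ := by
    have h5 : |τ * A| ≤ |τ| * |A| := (abs_mul _ _).le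
    have h6 := (abs_le.1 h5).1
    have h7 : 0 ≤ ε * |τ| := by positivity
    have h8 : |τ| * |A| ≤ (|A| + ε) * |τ| := by
      have : (|A| + ε) * |τ| = |τ| * |A| + ε * |τ| := by ring
      linarith
    linarith
  refine ⟨hμ0, ?_⟩
  have hx := ineq_x (μ := μ) hpos hK hs hε hε' hA hμdef (by linarith) (by linarith) h3 h4
  have hy := ineq_y (μ := μ) (A := A) (g := g) hpos hK hs hε hε' hg hμdef (by linarith) t4
  have hji : ∀ l, l < i → l ≠ j := by
    rintro l hl rfl
    have := hlt l hl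
    linarith
  let idx : Fin (i + 1) → ℕ := fun p => if (p : ℕ) < i then p else j
  let f : Fin (i + 1) → H := fun p => e (idx p)
  set η : ℝ := min (min (|τ| * (ε / 4)) (g / 2)) (1 / 2) with hηdef
  have hη : 0 < η := by
    rw [hηdef]
    refine lt_min (lt_min ?_ ?_) ?_ <;> positivity
  refine ⟨f, η, hη, ?_⟩
  intro c v hv
  set x := c (Fin.last i) with hxdef
  let d : Fin i → ℝ := fun l => c l.castSucc
  set y : H := ∑ l : Fin i, d l • e l with hydef
  have hv' : v = y + x • e j := by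
    rw [hv, Fin.sum_univ_castSucc]
    congr 1
    · refine Finset.sum_congr rfl fun l _ => ?_
      have : idx l.castSucc = l := by
        simp only [idx, Fin.val_castSucc, if_pos l.2]
      show c l.castSucc • e (idx l.castSucc) = _
      rw [this]
    · have : idx (Fin.last i) = j := by
        simp only [idx, Fin.val_last, lt_irrefl, if_false]
      show c (Fin.last i) • e (idx (Fin.last i)) = _
      rw [this]
  have ho := orth_fin b hE.orth i
  have hyy : b y y = ∑ l : Fin i, d l ^ 2 := b_orth_self b ho d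
  have hcs : ∑ p, (c p) ^ 2 = b y y + x ^ 2 := by
    rw [Fin.sum_univ_castSucc, hyy]
  have hY0 : 0 ≤ b y y := hF.nb y
  have hyj : b y (e j) = 0 := by
    rw [hydef, b_sum_left]
    refine Finset.sum_eq_zero fun l _ => ?_
    rw [hE.orth, if_neg (hji l l.2), mul_zero]
  have hayy : a y y ≤ (lam - g) * b y y := by
    have h5 : a y y = ∑ l : Fin i, E l * d l ^ 2 := by
      rw [hydef, b_sum_left]
      refine Finset.sum_congr rfl fun l _ => ?_
      rw [hE.eig, b_orth_coef b ho]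
      ring
    rw [h5, hyy, Finset.mul_sum]
    refine Finset.sum_le_sum fun l _ => ?_
    have h6 := hgap l (Finset.mem_range.2 l.2)
    exact mul_le_mul_of_nonneg_right (by linarith) (sq_nonneg _)
  have hjj : b (e j) (e j) = 1 := by rw [hE.orth, if_pos rfl]
  have hav : ∀ t : ℝ, a (y + t • e j) (y + t • e j) = a y y + lam * t ^ 2 := by
    intro t
    have h5 : a (e j) y = 0 := by rw [hE.eig, hF.sb, hyj, mul_zero]
    have h6 : a y (e j) = 0 := by rw [hF.sa, h5]
    have h7 : a (e j) (e j) = lam := by rw [hE.eig, hjj, mul_one]; exact hij.symm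
    rw [expand a hF.sa, h6, h7]
    ring
  have hbv : ∀ t : ℝ, b (y + t • e j) (y + t • e j) = b y y + t ^ 2 := by
    intro t
    rw [expand b hF.sb, hyj, hjj]
    ring
  have hle : ∀ t : ℝ, a (y + t • e j) (y + t • e j) ≤ lam * b (y + t • e j) (y + t • e j) := by
    intro t
    rw [hav, hbv]
    have : 0 ≤ g * b y y := by positivity
    nlinarith
  have hle0 : a y y ≤ lam * b y y := by
    have := hle 0
    rwa [zero_smul, add_zero] at this
  have hna : ‖ka‖ ≤ ‖ka‖ + ‖kb‖ := by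
    have := ContinuousLinearMap.opNorm_nonneg kb
    linarith
  have hnb : ‖kb‖ ≤ ‖ka‖ + ‖kb‖ := by
    have := ContinuousLinearMap.opNorm_nonneg ka
    linarith
  set Y := b y y with hYdef
  have ca : |2 * x * ka y (e j)| ≤ K * (Y / s + s * x ^ 2) :=
    cross ka kasym y (e j) x s K Y hs fun t => by
      have := hkbd ka hna _ (hle t)
      rwa [hbv] at this
  have cb : |2 * x * kb y (e j)| ≤ K * (Y / s + s * x ^ 2) :=
    cross kb kbsym y (e j) x s K Y hs fun t => by
      have := hkbd kb hnb _ (hle t)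
      rwa [hbv] at this
  have ya : |ka y y| ≤ K * Y := hkbd ka hna y hle0
  have yb : |kb y y| ≤ K * Y := hkbd kb hnb y hle0
  have hx2 : 0 ≤ x ^ 2 := sq_nonneg x
  have hbb : b v v = Y + x ^ 2 := by rw [hv', hbv]
  have haa : a v v = a y y + lam * x ^ 2 := by rw [hv', hav]
  have hkav : ka v v = ka y y + 2 * x * ka y (e j) + κa * x ^ 2 := by
    rw [hv', expand ka kasym]
  have hkbv : kb v v = kb y y + 2 * x * kb y (e j) + κb * x ^ 2 := by
    rw [hv', expand kb kbsym]
  rw [hcs]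
  constructor
  · have r1 : -(|τ| * (K * Y + K * (Y / s + s * x ^ 2))) ≤
        τ * (kb y y + 2 * x * kb y (e j)) := by
      have h6 : |τ * (kb y y + 2 * x * kb y (e j))| ≤
          |τ| * (K * Y + K * (Y / s + s * x ^ 2)) := by
        rw [abs_mul]
        refine mul_le_mul_of_nonneg_left ?_ ht
        exact (abs_add_le _ _).trans (add_le_add yb cb)
      exact (abs_le.1 h6).1
    have r2 : τ * (ka y y + 2 * x * ka y (e j)) ≤
        |τ| * (K * Y + K * (Y / s + s * x ^ 2)) := by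
      have h6 : |τ * (ka y y + 2 * x * ka y (e j))| ≤
          |τ| * (K * Y + K * (Y / s + s * x ^ 2)) := by
        rw [abs_mul]
        refine mul_le_mul_of_nonneg_left ?_ ht
        exact (abs_add_le _ _).trans (add_le_add ya ca)
      exact (abs_le.1 h6).2
    have r3 := mul_le_mul_of_nonneg_left r1 hμ0
    have r4 : (1 + ε' * |τ|) * a y y ≤ (1 + ε' * |τ|) * ((lam - g) * Y) :=
      mul_le_mul_of_nonneg_left hayy (by positivity)
    have r5 := mul_le_mul_of_nonneg_right hx hx2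
    have r6 := mul_le_mul_of_nonneg_right hy hY0
    have r7 : η * (Y + x ^ 2) ≤ |τ| * (ε / 4) * x ^ 2 + g / 2 * Y := by
      have u1 : η ≤ |τ| * (ε / 4) := (min_le_left _ _).trans (min_le_left _ _)
      have u2 : η ≤ g / 2 := (min_le_left _ _).trans (min_le_right _ _)
      have u3 := mul_le_mul_of_nonneg_right u1 hx2
      have u4 := mul_le_mul_of_nonneg_right u2 hY0
      linarith
    rw [hbb, haa, hkav, hkbv]
    have r8 : K * Y + K * (Y / s + s * x ^ 2) = (K * (1 + 1 / s)) * Y + (K * s) * x ^ 2 := by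
      field_simp
      ring
    rw [r8] at r2 r3
    linarith only [r2, r3, r4, r5, r6, r7]
  · have u1 : η ≤ 1 / 2 := min_le_right _ _
    have u2 : |kb v v| ≤ K * b v v := by
      have := hkbd kb hnb _ (hle x)
      rwa [← hv'] at this
    have hb0 : 0 ≤ b v v := hF.nb v
    have u3 : -(|τ| * (K * b v v)) ≤ τ * kb v v := by
      have h6 : |τ * kb v v| ≤ |τ| * (K * b v v) := by
        rw [abs_mul]
        exact mul_le_mul_of_nonneg_left u2 ht
      exact (abs_le.1 h6).1
    have u4 := mul_le_mul_of_nonneg_right t5 hb0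
    have u5 : η * (Y + x ^ 2) ≤ 1 / 2 * b v v := by
      rw [hbb]
      exact mul_le_mul_of_nonneg_right u1 (by linarith)
    linarith only [u3, u4, u5]

end Pool.Agent.Run7.h437.EF
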