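import Pool.Agent.Run7.h408.EF.Stm

/-!
# Project EF (helper408), piece `StDif`: integrals under a differentiable change of the metric
-/

set_option autoImplicit false

open Set Filter Topology MeasureTheory
open scoped Real ContDiff
open Pool.Agent.Y262.QE Pool.Agent.Y264.QR Pool.Agent.Run7.h408.EF

noncomputable section

namespace Pool.Agent.Run7.h437.EF

theorem pc_uniq {M : Type} (D : Data M) {i k : Fin D.N} {x : M} (hi : x ∈ D.pc i)
    (hk : x ∈ D.pc k) : i = k := by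
  rcases lt_trichotomy i k with h | h | h
  · exact absurd (Set.mem_iUnion.2 ⟨⟨i, h⟩, hi.1⟩) hk.2
  · exact h
  · exact absurd (Set.mem_iUnion.2 ⟨⟨k, h⟩, hk.1⟩) hi.2

theorem gr_on_pc {M : Type} (D : Data M) (F : M → ℝ) {i : Fin D.N} {x : M} (hi : x ∈ D.pc i) :
    D.gr F x = D.gc i F x := by
  unfold Data.gr
  rw [Finset.sum_eq_single i]
  · rw [Set.indicator_of_mem hi]
  · intro k _ hk
    rw [Set.indicator_of_notMem]
    exact fun h => hk (pc_uniq D h hi)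
  · intro h
    exact absurd (Finset.mem_univ i) h

theorem fld_on_pc {M : Type} (D : Data M) (A : Fin D.N → ℂ → ℂ →L[ℝ] ℂ) (h : Tn D) (v w : ℂ)
    {i : Fin D.N} {x : M} (hi : x ∈ D.pc i) :
    fld D A h v w x = h i (D.φ i x) ((A i (D.φ i x)).inverse v) ((A i (D.φ i x)).inverse w) := by
  unfold fld
  rw [Finset.sum_eq_single i]
  · rw [Set.indicator_of_mem hi]
  · intro k _ hk
    rw [Set.indicator_of_notMem]
    exact fun h => hk (pc_uniq D h hi)
  · intro h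
    exact absurd (Finset.mem_univ i) h

theorem comp_meas {M : Type} [MeasurableSpace M] (Φ : ℂ → ℂ → M → ℝ)
    (hΦ : Measurable fun p : M × ℂ => Φ p.2 p.2 p.1) (W : M → ℂ) (hW : Measurable W) :
    Measurable (fun x => Φ (W x) (W x) x) :=
  hΦ.comp (measurable_id.prodMk hW)

theorem int3 {M : Type} [MeasurableSpace M] (μ : Measure M) (f g : M → ℝ)
    (hf : Integrable f μ) (hg : Integrable g μ) (τ c : ℝ) :
    ∫ x, (f x + τ * g x + c * f x) ∂μ = (∫ x, f x ∂μ) + τ * (∫ x, g x ∂μ) + c * ∫ x, f x ∂μ := by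
  have i1 : Integrable (fun x => τ * g x) μ := hg.const_mul τ
  have i2 : Integrable (fun x => c * f x) μ := hf.const_mul c
  have i12 : Integrable (fun x => f x + τ * g x) μ := hf.add i1
  rw [integral_add i12 i2, integral_add hf i1, integral_const_mul, integral_const_mul]

theorem tDif (hFin : StFin) (hGr : StGr) (hLin : StLinB) (hCmp : StCmp) (hFld : StFld) :
    StDif := by
  intro M _ _ _ _ μ₀ D A₀ hS₀ h K hT hK ε hε
  have hf₀ : IsFiniteMeasure μ₀ := (hFin M μ₀ (wth D A₀) hS₀).1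
  obtain ⟨hfm, -, hfb, htb, -, -, hfm2⟩ := hFld M μ₀ D A₀ hS₀ h K hT
  obtain ⟨δ, ε', hδ, hε', hL⟩ := hLin K ε hK hε
  have htm : Measurable (trc D A₀ h) := (hfm 1 1).add (hfm Complex.I Complex.I)
  refine ⟨min δ (1 / (K + ε)), ε', lt_min hδ (by positivity), hε', ?_⟩
  intro τ hτ A₁ μ₁ hS₁ hA
  have hτ1 : |τ| < δ := lt_of_lt_of_le hτ (min_le_left _ _)
  have hτ2 : |τ| * (K + ε) ≤ 1 := by
    have h1 := lt_of_lt_of_le hτ (min_le_right _ _)
    rw [lt_div_iff₀ (by positivity)] at h1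
    exact h1.le
  have hf₁ : IsFiniteMeasure μ₁ := (hFin M μ₁ (wth D A₁) hS₁).1
  have hd₀ : ∀ i, ∀ z ∈ D.T i, (A₀ i z).det ≠ 0 := hS₀.det
  have hd₁ : ∀ i, ∀ z ∈ D.T i, (A₁ i z).det ≠ 0 := hS₁.det
  have hpT : ∀ i, ∀ x ∈ D.pc i, D.φ i x ∈ D.T i := fun i x hx => Set.mem_image_of_mem _ hx.1
  -- the two pointwise inequalities on the pieces
  have hpt : ∀ i, ∀ x ∈ D.pc i,
      |(|(A₁ i (D.φ i x)).det| - |(A₀ i (D.φ i x)).det| * (1 + τ * (1 / 2 * trc D A₀ h x)))| ≤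
        ε * |τ| * |(A₀ i (D.φ i x)).det| ∧
      ∀ P : ℂ →L[ℝ] ℝ, |(A₁ i (D.φ i x)).det| * ‖grd (A₁ i (D.φ i x)) P‖ ^ 2 ≤
        |(A₀ i (D.φ i x)).det| * (‖grd (A₀ i (D.φ i x)) P‖ ^ 2 +
          τ * (1 / 2 * trc D A₀ h x * ‖grd (A₀ i (D.φ i x)) P‖ ^ 2 -
            fld D A₀ h (grd (A₀ i (D.φ i x)) P) (grd (A₀ i (D.φ i x)) P) x) +
          ε * |τ| * ‖grd (A₀ i (D.φ i x)) P‖ ^ 2) := by
    intro i x hx
    have hz := hpT i x hx
    have h1 := hL τ hτ1 (A₀ i (D.φ i x)) (A₁ i (D.φ i x)) (hd₀ i _ hz) (hd₁ i _ hz)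
      (h i (D.φ i x)) (hT.symm i _) (hT.bdd i _ hz) (hA i _ hz)
    have et : trc D A₀ h x =
        h i (D.φ i x) ((A₀ i (D.φ i x)).inverse 1) ((A₀ i (D.φ i x)).inverse 1) +
        h i (D.φ i x) ((A₀ i (D.φ i x)).inverse Complex.I)
          ((A₀ i (D.φ i x)).inverse Complex.I) := by
      unfold trc
      rw [fld_on_pc D A₀ h 1 1 hx, fld_on_pc D A₀ h Complex.I Complex.I hx]
    rw [et]
    refine ⟨h1.1, fun P => ?_⟩
    rw [fld_on_pc D A₀ h _ _ hx]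
    exact h1.2 P
  have hareaU : ∀ i, ∀ x ∈ D.pc i, |(A₁ i (D.φ i x)).det| ≤
      |(A₀ i (D.φ i x)).det| * (1 + τ * (1 / 2 * trc D A₀ h x) + ε * |τ|) := by
    intro i x hx
    have h1 := (abs_le.1 (hpt i x hx).1).2
    have h2 : |(A₀ i (D.φ i x)).det| * (1 + τ * (1 / 2 * trc D A₀ h x) + ε * |τ|) =
      |(A₀ i (D.φ i x)).det| * (1 + τ * (1 / 2 * trc D A₀ h x)) +
        ε * |τ| * |(A₀ i (D.φ i x)).det| := by ring
    rw [h2]
    linarith
  have hareaL : ∀ i, ∀ x ∈ D.pc i,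
      |(A₀ i (D.φ i x)).det| * (1 + τ * (1 / 2 * trc D A₀ h x) - ε * |τ|) ≤
      |(A₁ i (D.φ i x)).det| := by
    intro i x hx
    have h1 := (abs_le.1 (hpt i x hx).1).1
    have h2 : |(A₀ i (D.φ i x)).det| * (1 + τ * (1 / 2 * trc D A₀ h x) - ε * |τ|) =
      |(A₀ i (D.φ i x)).det| * (1 + τ * (1 / 2 * trc D A₀ h x)) -
        ε * |τ| * |(A₀ i (D.φ i x)).det| := by ring
    rw [h2]
    linarith
  have htτ : ∀ x, |τ * (1 / 2 * trc D A₀ h x)| ≤ |τ| * K := by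
    intro x
    rw [abs_mul, abs_mul, abs_of_pos (by norm_num : (0 : ℝ) < 1 / 2)]
    refine mul_le_mul_of_nonneg_left ?_ (abs_nonneg τ)
    have := htb x
    linarith
  have hpos : ∀ x, 0 ≤ 1 + τ * (1 / 2 * trc D A₀ h x) - ε * |τ| := by
    intro x
    have h1 := (abs_le.1 (htτ x)).1
    have h2 : |τ| * (K + ε) = |τ| * K + ε * |τ| := by ring
    linarith
  -- integrability of bounded functions
  have hbi : ∀ (g : M → ℝ) (C : ℝ), Measurable g → (∀ x, |g x| ≤ C) → Integrable g μ₀ := by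
    intro g C hg hC
    refine Integrable.mono' (integrable_const C) hg.aestronglyMeasurable ?_
    exact ae_of_all _ fun x => by rw [Real.norm_eq_abs]; exact hC x
  have hmass : ∀ F : M → ℝ, Continuous F →
      (∫ x, (F x) ^ 2 ∂μ₀) + τ * (∫ x, 1 / 2 * trc D A₀ h x * (F x) ^ 2 ∂μ₀) -
        ε * |τ| * (∫ x, (F x) ^ 2 ∂μ₀) ≤ ∫ x, (F x) ^ 2 ∂μ₁ := by
    intro F hc
    obtain ⟨C, hC⟩ : ∃ C : ℝ, ∀ x, |F x| ≤ C := by
      obtain ⟨C, hC⟩ := isCompact_univ.exists_bound_of_continuousOn (f := F) hc.continuousOn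
      exact ⟨C, fun x => hC x (mem_univ x)⟩
    have hC2 : ∀ x, |(F x) ^ 2| ≤ C ^ 2 := fun x => by
      rw [abs_of_nonneg (by positivity), ← sq_abs (F x)]
      exact pow_le_pow_left₀ (abs_nonneg _) (hC x) 2
    have hFm : Measurable (fun x => (F x) ^ 2) := hc.measurable.pow_const 2
    have i1 : Integrable (fun x => (F x) ^ 2) μ₀ := hbi _ _ hFm hC2
    have i2 : Integrable (fun x => 1 / 2 * trc D A₀ h x * (F x) ^ 2) μ₀ := by
      refine hbi _ (K * C ^ 2) ((htm.const_mul _).mul hFm) fun x => ?_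
      rw [abs_mul, abs_mul, abs_of_pos (by norm_num : (0 : ℝ) < 1 / 2)]
      refine mul_le_mul ?_ (hC2 x) (abs_nonneg _) hK
      have := htb x
      linarith
    have key := hCmp M μ₀ μ₁ D A₀ A₁ hS₀ hS₁
      (fun x => (F x) ^ 2 + τ * (1 / 2 * trc D A₀ h x * (F x) ^ 2) + (-(ε * |τ|)) * (F x) ^ 2)
      (fun x => (F x) ^ 2)
      ((hFm.add (((htm.const_mul _).mul hFm).const_mul τ)).add (hFm.const_mul _)) hFm
      ⟨C ^ 2, hC2⟩ (fun x => ?_) ?_
    · rw [int3 μ₀ _ _ i1 i2] at key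
      linarith
    · have h1 : (F x) ^ 2 + τ * (1 / 2 * trc D A₀ h x * (F x) ^ 2) +
        (-(ε * |τ|)) * (F x) ^ 2 =
        (1 + τ * (1 / 2 * trc D A₀ h x) - ε * |τ|) * (F x) ^ 2 := by ring
      show 0 ≤ (F x) ^ 2 + τ * (1 / 2 * trc D A₀ h x * (F x) ^ 2) + (-(ε * |τ|)) * (F x) ^ 2
      rw [h1]
      exact mul_nonneg (hpos x) (sq_nonneg _)
    · intro i x hx
      have h1 := hareaL i x hx
      calc |(A₀ i (D.φ i x)).det| *
          ((F x) ^ 2 + τ * (1 / 2 * trc D A₀ h x * (F x) ^ 2) + (-(ε * |τ|)) * (F x) ^ 2)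
          = (|(A₀ i (D.φ i x)).det| * (1 + τ * (1 / 2 * trc D A₀ h x) - ε * |τ|)) *
            (F x) ^ 2 := by ring
        _ ≤ |(A₁ i (D.φ i x)).det| * (F x) ^ 2 :=
            mul_le_mul_of_nonneg_right h1 (sq_nonneg _)
  refine ⟨fun F hF => ⟨?_, ?_⟩, ?_⟩
  · obtain ⟨_, hm₀, C₀, hC₀⟩ := (hGr M μ₀ (wth D A₀) hS₀).1 F hF
    obtain ⟨_, hm₁, _⟩ := (hGr M μ₁ (wth D A₁) hS₁).1 F hF
    set W : M → ℂ := (wth D A₀).gr F with hW
    have hC2 : ∀ x, |‖W x‖ ^ 2| ≤ C₀ ^ 2 := fun x => by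
      rw [abs_of_nonneg (by positivity)]
      exact pow_le_pow_left₀ (norm_nonneg _) (hC₀ x) 2
    have hWm : Measurable (fun x => ‖W x‖ ^ 2) := hm₀.norm.pow_const 2
    have hfW : Measurable (fun x => fld D A₀ h (W x) (W x) x) :=
      comp_meas (fld D A₀ h) hfm2 W hm₀
    have hsm : Measurable (fun x => 1 / 2 * trc D A₀ h x * ‖W x‖ ^ 2 -
        fld D A₀ h (W x) (W x) x) := ((htm.const_mul _).mul hWm).sub hfW
    have hsb : ∀ x, |1 / 2 * trc D A₀ h x * ‖W x‖ ^ 2 - fld D A₀ h (W x) (W x) x| ≤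
        2 * (K * C₀ ^ 2) := by
      intro x
      refine (abs_sub _ _).trans ?_
      have h1 : |1 / 2 * trc D A₀ h x * ‖W x‖ ^ 2| ≤ K * C₀ ^ 2 := by
        rw [abs_mul, abs_mul, abs_of_pos (by norm_num : (0 : ℝ) < 1 / 2)]
        refine mul_le_mul ?_ (hC2 x) (abs_nonneg _) hK
        have := htb x
        linarith
      have h2 : |fld D A₀ h (W x) (W x) x| ≤ K * C₀ ^ 2 := by
        refine (hfb (W x) x).trans (mul_le_mul_of_nonneg_left ?_ hK)
        exact (le_abs_self _).trans (hC2 x)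
      linarith
    have i1 : Integrable (fun x => ‖W x‖ ^ 2) μ₀ := hbi _ _ hWm hC2
    have i2 : Integrable (fun x => 1 / 2 * trc D A₀ h x * ‖W x‖ ^ 2 -
        fld D A₀ h (W x) (W x) x) μ₀ := hbi _ _ hsm hsb
    have key := hCmp M μ₁ μ₀ D A₁ A₀ hS₁ hS₀ (fun x => ‖(wth D A₁).gr F x‖ ^ 2)
      (fun x => ‖W x‖ ^ 2 + τ * (1 / 2 * trc D A₀ h x * ‖W x‖ ^ 2 -
        fld D A₀ h (W x) (W x) x) + ε * |τ| * ‖W x‖ ^ 2) (hm₁.norm.pow_const 2)
      ((hWm.add (hsm.const_mul τ)).add (hWm.const_mul _))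
      ⟨C₀ ^ 2 + |τ| * (2 * (K * C₀ ^ 2)) + ε * |τ| * C₀ ^ 2, fun x => ?_⟩
      (fun x => by positivity) ?_
    · rw [int3 μ₀ _ _ i1 i2] at key
      exact key
    · have h1 := hC2 x
      have h2 : |τ * (1 / 2 * trc D A₀ h x * ‖W x‖ ^ 2 - fld D A₀ h (W x) (W x) x)| ≤
          |τ| * (2 * (K * C₀ ^ 2)) := by
        rw [abs_mul]
        exact mul_le_mul_of_nonneg_left (hsb x) (abs_nonneg _)
      have h3 : |ε * |τ| * ‖W x‖ ^ 2| ≤ ε * |τ| * C₀ ^ 2 := by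
        rw [abs_mul, abs_of_nonneg (by positivity : 0 ≤ ε * |τ|)]
        exact mul_le_mul_of_nonneg_left (hC2 x) (by positivity)
      exact (abs_add_le _ _).trans (add_le_add ((abs_add_le _ _).trans (add_le_add h1 h2)) h3)
    · intro i x hx
      have e₁ : (wth D A₁).gr F x = grd (A₁ i (D.φ i x)) (D.dc i F x) := gr_on_pc (wth D A₁) F hx
      have e₀ : W x = grd (A₀ i (D.φ i x)) (D.dc i F x) := gr_on_pc (wth D A₀) F hx
      have h1 := (hpt i x hx).2 (D.dc i F x)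
      rw [← e₀, ← e₁] at h1
      exact h1
  · exact hmass F ((hGr M μ₀ (wth D A₀) hS₀).1 F hF).1
  · have i2 : Integrable (fun x => 1 / 2 * trc D A₀ h x) μ₀ := by
      refine hbi _ K (htm.const_mul _) fun x => ?_
      rw [abs_mul, abs_of_pos (by norm_num : (0 : ℝ) < 1 / 2)]
      have := htb x
      linarith
    have h1 := hmass (fun _ => 1) continuous_const
    simp only [one_pow, mul_one] at h1
    rw [integral_const, integral_const, smul_eq_mul, smul_eq_mul, mul_one, mul_one] at h1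
    have i1 : Integrable (fun _ : M => (1 : ℝ)) μ₀ := integrable_const 1
    have key := hCmp M μ₁ μ₀ D A₁ A₀ hS₁ hS₀ (fun _ => 1)
      (fun x => (fun _ => (1 : ℝ)) x + τ * (1 / 2 * trc D A₀ h x) + (ε * |τ|) * (fun _ => (1 : ℝ)) x)
      measurable_const
      ((measurable_const.add ((htm.const_mul _).const_mul τ)).add
        (measurable_const.const_mul _))
      ⟨1 + |τ| * K + ε * |τ|, fun x => ?_⟩ (fun x => zero_le_one) ?_
    · rw [int3 μ₀ (fun _ => (1 : ℝ)) (fun x => 1 / 2 * trc D A₀ h x) i1 i2] at key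
      rw [integral_const, integral_const, smul_eq_mul, smul_eq_mul, mul_one, mul_one] at key
      rw [abs_le]
      constructor <;> linarith
    · have h3 : 0 ≤ ε * |τ| := by positivity
      obtain ⟨h4, h5⟩ := abs_le.1 (htτ x)
      show |(1 + τ * (1 / 2 * trc D A₀ h x) + ε * |τ| * 1)| ≤ 1 + |τ| * K + ε * |τ|
      rw [mul_one, abs_le]
      constructor <;> linarith
    · intro i x hx
      have h6 := hareaU i x hx
      show |(A₁ i (D.φ i x)).det| * 1 ≤ |(A₀ i (D.φ i x)).det| *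
        (1 + τ * (1 / 2 * trc D A₀ h x) + ε * |τ| * 1)
      rw [mul_one, mul_one]
      exact h6

end Pool.Agent.Run7.h437.EF
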